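import Pool.Agent.Work.MP_8f87b2_h57.J3Rows

/-!
# MP_8f87b2_co, rows I-J3V-J3 and I-J3-J3V

The inner words of the groups of one soliton classes (`TyH`) are no words of J3V, and conversely.
-/

set_option autoImplicit false

namespace Pool.OddHC

open Finset Equiv BinaryTree Pool.Agent.Work.MP_8f87b2_co

variable {k : ℕ} {F F' : Set (Cyc k)} {g g' : DG k}

/-- **I-J3V-J3** -/
theorem TyJ3V.inner_H (h : TyJ3V F g) (h' : Hole2.TyH F' g') : ∀ p ∈ g.arcs, ∀ w ∈ innA p, w ∉ g'.B :=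
  fun p hp w hw => (h.nis p hp w hw).not_mem h'.njs

/-- **I-J3-J3V** -/
theorem Hole2.TyH.inner_J3V (h : Hole2.TyH F g) (h' : TyJ3V F' g') :
    ∀ p ∈ g.arcs, ∀ w ∈ innA p, w ∉ g'.B :=
  fun p hp w hw => (h.nis p hp w hw).not_mem h'.njs

end Pool.OddHC
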