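import Pool.Agent.Work.MP_8f87b2_h6.TyJ3V
import Pool.Agent.Work.MP_8f87b2_h49.JVS5

/-!
# MP_8f87b2_co, row I-J3V-S5

The inner words of J3V (`TT (sX R B S w0 i)`, `i = 3, 6, 8`) have one part 1, the words of `TyS5` at least two.
-/

set_option autoImplicit false

namespace Pool.OddHC

open Finset Equiv BinaryTree Pool.Agent.Work.MP_8f87b2_co

namespace J3

variable {k : ℕ} {R B S : BinaryTree Unit}

/-- the words 3, 6, 8 have one part 1 -/
theorem SqD.one_in (h : SqD k R B S) {i : ℕ} (hi : i ∈ [3, 6, 8]) :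
    (OddHC.cont (H1.W R .nil B S i)).count 1 = 1 := by
  have hR1 := h.one
  have h2 := two_le hR1 h.ne
  have cn : ∀ A C : BinaryTree Unit, (OddHC.cont (A △ C)).count 1 =
      (raise (OddHC.cont A)).count 1 + (OddHC.cont C).count 1 := by
    intro A C
    rw [cont_node, Multiset.count_add]
  have ca : ∀ A C : BinaryTree Unit, (OddHC.cont (app A C)).count 1 =
      (OddHC.cont A).count 1 + (OddHC.cont C).count 1 := by
    intro A C
    rw [cont_app, Multiset.count_add]
  have c0 : (OddHC.cont (BinaryTree.nil : BinaryTree Unit)).count 1 = 0 := rfl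
  have r0 : (raise (OddHC.cont (BinaryTree.nil : BinaryTree Unit))).count 1 = 1 := by
    rw [cont_nil, raise_zero]; rfl
  have rR : (raise (OddHC.cont R)).count 1 = 0 := by rw [H1.raise_one h2, hR1]
  simp only [List.mem_cons, List.not_mem_nil, or_false] at hi
  rcases hi with rfl | rfl | rfl
  · have h6 : (raise (OddHC.cont (app R (BinaryTree.nil △ BinaryTree.nil)))).count 1 = 1 := by
      rw [H1.raise_one, ca, cn, r0, c0, hR1]
      rw [cont_app, Multiset.sup_add]
      exact le_sup_of_le_left h2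
    change (OddHC.cont ((app R (BinaryTree.nil △ BinaryTree.nil)) △ BinaryTree.nil)).count 1 = 1
    rw [cn, h6, c0]
  · change (OddHC.cont (R △ (BinaryTree.nil △ BinaryTree.nil))).count 1 = 1
    rw [cn, cn, rR, r0, c0]
  · change (OddHC.cont (BinaryTree.nil △ (R △ BinaryTree.nil))).count 1 = 1
    rw [cn, cn, rR, r0, c0]

/-- **the inner words and the words of section 5** -/
theorem SqD.inn_S5 (h : SqD k R B S) (w0 : X k) {i : ℕ} (hi : i ∈ [3, 6, 8]) {F' : Set (Cyc k)}
    {g' : DG k} (h' : TyS5 F' g') : TT (sX R B S w0 i) ∉ g'.B := by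
  intro hw
  have h1 := h'.one _ hw
  have hi20 : i < 20 := by
    simp only [List.mem_cons, List.not_mem_nil, or_false] at hi
    omega
  have h2 : OddHC.cont (TT (sX R B S w0 i)).1 = OddHC.cont (H1.W R .nil B S i) := by
    rw [TT_apply, cont_TF, h.word w0 hi20]
  rw [h2, h.one_in hi] at h1
  omega

end J3

open J3

variable {k : ℕ} {F F' : Set (Cyc k)} {g g' : DG k}

/-- **I-J3V-S5** -/
theorem TyJ3V.inner_S5 (h : TyJ3V F g) (h' : TyS5 F' g') : ∀ p ∈ g.arcs, ∀ w ∈ innA p, w ∉ g'.B := by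
  obtain ⟨R, B, S, w0, h1, _, rfl, rfl⟩ := h
  intro q hq w hw
  have key : ∀ i j : ℕ, i ∈ [3, 6, 8] → q = (sX R B S w0 i, sX R B S w0 j) → w ∉ g'.B := by
    rintro i j hi rfl
    have hw' : w = TT (sX R B S w0 i) := hw
    rw [hw']
    exact h1.inn_S5 w0 hi h'
  have hp' : q = (sX R B S w0 3, sX R B S w0 12) ∨ q = (sX R B S w0 6, sX R B S w0 15) ∨
      q = (sX R B S w0 8, sX R B S w0 14) := hq
  rcases hp' with e | e | e
  · exact key 3 12 (by simp) e
  · exact key 6 15 (by simp) e
  · exact key 8 14 (by simp) e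

end Pool.OddHC
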